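import Pool.Agent.SXT.MainT

/-! MP_208b40_gt, hand-in BridgeBound.  The definitions are in `Pool/Agent/SXP/Geo.lean`. -/

namespace Pool.Agent.Results.MP_208b40_gt.BridgeBound

open SXP

/-- Let `G` be a Kleinian group (through `ρ`) with a torus cusp at infinity generated by `μ, lam`,
and let `P` be the family of lifts of an embedded totally geodesic surface.  If `G` is generated by
`k` conjugates of `μ`, then the slope `μ` crosses the surface at most `k - 1` times; if the surface
is separating, the number of crossings is `0` or `2` for `k ≤ 4` and `0` for `k ≤ 2`. -/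
theorem result {G : Type} [Group G] (ρ : G →* Matrix.SpecialLinearGroup (Fin 2) ℂ) (μ lam : G)
    (m l : ℂ) (hc : TorusCusp ρ μ lam m l) (P : Set (Set H3)) (hP : TGSurface ρ P) :
    ∃ N : ℕ, (∀ x, x ∉ ⋃₀ P → crossNum ρ P μ x = N) ∧
      ∀ k : ℕ, (∃ c : Fin k → G,
        Subgroup.closure (Set.range fun i => c i * μ * (c i)⁻¹) = ⊤) →
          N + 1 ≤ k ∧ (Separating ρ P → (k ≤ 4 → N = 0 ∨ N = 2) ∧ (k ≤ 2 → N = 0)) := by
  have h0 : ∀ k : ℕ, (∃ c : Fin k → G,
      Subgroup.closure (Set.range fun i => c i * μ * (c i)⁻¹) = ⊤) → 1 ≤ k := by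
    rintro k ⟨c, hgen⟩
    by_contra hk
    obtain rfl : k = 0 := by omega
    have : lam ∈ Subgroup.closure (Set.range fun i : Fin 0 => c i * μ * (c i)⁻¹) := by
      rw [hgen]; exact Subgroup.mem_top _
    rw [Set.range_eq_empty, Subgroup.closure_empty, Subgroup.mem_bot] at this
    exact SXT.lam_not hc (by rw [this]; exact Subgroup.one_mem _)
  by_cases h : ∃ x, x ∉ ⋃₀ P
  · obtain ⟨x, hx⟩ := h
    obtain ⟨N, hN⟩ := ENat.ne_top_iff_exists.mp (crossNum_fin (μ := μ) hP x)
    refine ⟨N, fun y hy => by rw [crossNum_const hc hP hy hx, ← hN], ?_⟩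
    rintro k ⟨c, hgen⟩
    have h1 : N + 1 ≤ k := by
      by_contra hk
      exact SXT.main_many hc hP hx (k := k) (by rw [← hN]; exact_mod_cast (by omega : k ≤ N)) c hgen
    refine ⟨h1, fun hS => ?_⟩
    obtain ⟨j, hj⟩ := cross_even hc hP hS hx
    rw [← hN] at hj
    have h2 : N = 2 * j := by exact_mod_cast hj
    exact ⟨fun hk => by omega, fun hk => by omega⟩
  · refine ⟨0, fun x hx => absurd ⟨x, hx⟩ h, fun k hk => ?_⟩
    exact ⟨h0 k hk, fun _ => ⟨fun _ => Or.inl rfl, fun _ => rfl⟩⟩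

end Pool.Agent.Results.MP_208b40_gt.BridgeBound
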