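import Pool.Agent.SXP.MainSep
import Pool.Agent.SXP.MainStab

/-! MP_208b40_gt, hand-in CrossingBound.  The definitions are in `Pool/Agent/SXP/Geo.lean`. -/

namespace Pool.Agent.Results.MP_208b40_gt.CrossingBound

open SXP

/-- Let `G` be a Kleinian group (through `ρ`) with a torus cusp at infinity generated by `μ, lam`,
and let `P` be the family of lifts of an embedded totally geodesic surface `S`. -/
theorem result {G : Type} [Group G] (ρ : G →* Matrix.SpecialLinearGroup (Fin 2) ℂ) (μ lam : G)
    (m l : ℂ) (hc : TorusCusp ρ μ lam m l) (P : Set (Set H3)) (hP : TGSurface ρ P) :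
    -- the number of times the slope `μ` crosses the surface is a well defined finite number
    (∃ N : ℕ, ∀ x, x ∉ ⋃₀ P → crossNum ρ P μ x = N) ∧
    -- if it is at least six, or at least four and there is no ideal triangle, then the normal
    -- closure of `μ` acts freely on the complementary regions and on the planes
    (∀ x₀, x₀ ∉ ⋃₀ P →
      (6 ≤ crossNum ρ P μ x₀ ∨ (4 ≤ crossNum ρ P μ x₀ ∧ ¬ IdealTriangle ρ P)) →
      ∀ g ∈ Subgroup.normalClosure ({μ} : Set G), g ≠ 1 →
        (∀ x, x ∉ ⋃₀ P → ∃ S ∈ P, Sep S x (act (ρ g) x)) ∧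
        ∀ S ∈ P, act (ρ g) '' S = S → g * g = 1) ∧
    -- if the core of the filling along `μ` has finite order, it is at most five, if it is at
    -- least four there is an ideal triangle, and it is 0, 2 or 4 if the surface separates
    (∀ n : ℕ, 0 < n → lam ^ n ∈ Subgroup.normalClosure ({μ} : Set G) →
      ∀ x, x ∉ ⋃₀ P → crossNum ρ P μ x ≤ 5 ∧
        (4 ≤ crossNum ρ P μ x → IdealTriangle ρ P) ∧
        (Separating ρ P → crossNum ρ P μ x = 0 ∨ crossNum ρ P μ x = 2 ∨
          crossNum ρ P μ x = 4)) := by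
  refine ⟨?_, ?_, ?_⟩
  · by_cases h : ∃ x, x ∉ ⋃₀ P
    · obtain ⟨x₀, hx₀⟩ := h
      obtain ⟨N, hN⟩ := ENat.ne_top_iff_exists.mp (crossNum_fin (μ := μ) hP x₀)
      exact ⟨N, fun x hx => by rw [crossNum_const hc hP hx hx₀, ← hN]⟩
    · exact ⟨0, fun x hx => absurd ⟨x, hx⟩ h⟩
  · intro x₀ hx₀ h6 g hg hg1
    exact ⟨fun x hx => main_free hc hP hx₀ h6 hg hg1 hx,
      fun S hS hgS => main_stab hc hP hx₀ h6 hg hS hgS⟩
  · intro n hn hln x hx
    obtain ⟨N, hN⟩ := ENat.ne_top_iff_exists.mp (crossNum_fin (μ := μ) hP x)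
    have h5 : N < 6 := by
      by_contra h
      push Not at h
      apply not_six hc hP hn hln hx
      left
      rw [← hN]; exact_mod_cast h
    refine ⟨by rw [← hN]; exact_mod_cast (by omega : N ≤ 5), fun h4 => ?_, fun hS => ?_⟩
    · by_contra hnt
      exact not_six hc hP hn hln hx (Or.inr ⟨h4, hnt⟩)
    obtain ⟨k, hk⟩ := cross_even hc hP hS hx
    rw [← hN] at hk ⊢
    have hk' : N = 2 * k := by exact_mod_cast hk
    have : N = 0 ∨ N = 2 ∨ N = 4 := by omega
    rcases this with h | h | h
    · left; exact_mod_cast h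
    · right; left; exact_mod_cast h
    · right; right; exact_mod_cast h

end Pool.Agent.Results.MP_208b40_gt.CrossingBound
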