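import Pool.Agent.SXG.MainG

/-! MP_208b40_gt, hand-in GenusBound.  The definitions are in `Pool/Agent/SXP/Geo.lean`. -/

namespace Pool.Agent.Results.MP_208b40_gt.GenusBound

open SXP

/-- Let `G` be a Kleinian group (through `ρ`) with a torus cusp at infinity generated by `μ, lam`,
and let `P` be the family of lifts of an embedded totally geodesic surface.  If a power `μ ^ n`
is a product of `k` commutators, then the slope `μ` crosses the surface at most `(12 k - 6) / n`
times, and at most `(8 k - 4) / n` times if there is no ideal triangle. -/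
theorem result {G : Type} [Group G] (ρ : G →* Matrix.SpecialLinearGroup (Fin 2) ℂ) (μ lam : G)
    (m l : ℂ) (hc : TorusCusp ρ μ lam m l) (P : Set (Set H3)) (hP : TGSurface ρ P) :
    ∃ N : ℕ, (∀ x, x ∉ ⋃₀ P → crossNum ρ P μ x = N) ∧
      ∀ n : ℕ, 1 ≤ n → ∀ w : List (G × G),
        (w.map fun p => p.1 * p.2 * p.1⁻¹ * p.2⁻¹).prod = μ ^ n →
          n * N + 6 ≤ 12 * w.length ∧ (¬ IdealTriangle ρ P → n * N + 4 ≤ 8 * w.length) := by
  by_cases h : ∃ x, x ∉ ⋃₀ P
  · obtain ⟨x, hx⟩ := h
    obtain ⟨N, hN⟩ := ENat.ne_top_iff_exists.mp (crossNum_fin (μ := μ) hP x)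
    refine ⟨N, fun y hy => by rw [crossNum_const hc hP hy hx, ← hN], fun n hn w hw => ⟨?_, ?_⟩⟩
    · have := SXG.genus_main hc hP hx hN.symm (D := 3) (Or.inl rfl) hn w hw
      omega
    · intro hnt
      have := SXG.genus_main hc hP hx hN.symm (D := 2) (Or.inr ⟨rfl, hnt⟩) hn w hw
      omega
  · refine ⟨0, fun x hx => absurd ⟨x, hx⟩ h, fun n hn w hw => ?_⟩
    have hne : w ≠ [] := by
      rintro rfl
      exact SXG.mu_pow_ne hc hn (by simpa using hw.symm)
    have h1 : 1 ≤ w.length := List.length_pos_iff.mpr hne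
    constructor
    · omega
    · intro _; omega

end Pool.Agent.Results.MP_208b40_gt.GenusBound
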