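import Pool.Agent.RPL.Fin

/-! MP_208b40_gt, hand-in OddTraceField.  The definitions are in `Pool/Agent/SXP/Geo.lean` and
`Pool/Agent/RPL/Defs.lean`. -/

namespace Pool.Agent.Results.MP_208b40_gt.OddTraceField

open SXP RPL

/-- Let `G` (through `ρ`) be the group of a hyperbolic knot complement `H3 / G`: a torus cusp at
infinity, no other cusp, finite volume, and a Wirtinger presentation. -/
theorem result {G : Type} [Group G] (ρ : G →* Matrix.SpecialLinearGroup (Fin 2) ℂ) (μ lam : G)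
    (m l : ℂ) (hc : TorusCusp ρ μ lam m l) (h1 : OneCusped ρ) (hw : Wirtinger G) :
    -- no embedding of the trace field in `ℝ` fixes the real traces of the stabiliser of a lift of
    -- a separating or a closed totally geodesic surface
    (∀ S : Set H3, ((∃ P, TGSurface ρ P ∧ Separating ρ P ∧ S ∈ P) ∨ ClosedTG ρ S) →
      ∀ σ : trField ρ →+* ℝ, ∃ g : G, act (ρ g) '' S = S ∧ (ρ g).1.trace.im = 0 ∧
        ((σ ⟨(ρ g).1.trace, tr_mem ρ g⟩ : ℝ) : ℂ) ≠ (ρ g).1.trace) ∧
    -- so, if the trace field has odd degree, or has a real place and no real elements but the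
    -- rational numbers, then there is neither a separating nor a closed totally geodesic surface
    ((Odd (Module.finrank ℚ (trField ρ)) ∨ (Nonempty (trField ρ →+* ℝ) ∧
        ∀ z : trField ρ, (z : ℂ).im = 0 → ∃ q : ℚ, (z : ℂ) = q)) →
      (∀ P, TGSurface ρ P → ¬ Separating ρ P) ∧ ∀ S, ¬ ClosedTG ρ S) := by
  have hemb := fun (S : Set H3) hS (σ : trField ρ →+* ℝ) => main_emb hc h1 hw (S := S) hS σ
  refine ⟨hemb, fun h => ?_⟩
  -- a real embedding over the real subfield
  obtain ⟨σ, hσ⟩ : ∃ σ : trField ρ →+* ℝ, ∀ z : trField ρ, (z : ℂ).im = 0 →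
      ((σ z : ℝ) : ℂ) = z := by
    rcases h with h | ⟨⟨σ⟩, hq⟩
    · exact exists_real_emb (Nat.not_even_iff_odd.2 h)
    · refine ⟨σ, fun z hz => ?_⟩
      obtain ⟨q, hq'⟩ := hq z hz
      have h2 : z = (q : trField ρ) := Subtype.ext (by rw [hq']; simp)
      rw [h2, map_ratCast]
      simp
  have key : ∀ S : Set H3, ((∃ P, TGSurface ρ P ∧ Separating ρ P ∧ S ∈ P) ∨ ClosedTG ρ S) →
      False := by
    intro S hS
    obtain ⟨g, -, htr, hne⟩ := hemb S hS σ
    exact hne (hσ _ htr)
  refine ⟨fun P hP hsep => ?_, fun S hS => key S (Or.inr hS)⟩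
  obtain ⟨S, hSP⟩ := ne_empty hP hsep
  exact key S (Or.inl ⟨P, hP, hsep, hSP⟩)

end Pool.Agent.Results.MP_208b40_gt.OddTraceField
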